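import Pool.Agent.W209.KT.Stm

set_option autoImplicit false

/-! Task COV of project KT. -/

namespace Pool.Agent.W45.KT

open Pool.Agent.W209.KT

theorem lev_bd (k : ℕ) : (256 : ℝ) ^ lev k ≤ k + 1 ∧ (k : ℝ) + 1 < 256 ^ (lev k + 1) := by
  have h1 : 256 ^ lev k ≤ k + 1 := Nat.pow_log_le_self 256 (by omega)
  have h2 : k + 1 < 256 ^ (lev k + 1) := Nat.lt_pow_succ_log_self (by norm_num) _
  constructor
  · exact_mod_cast h1
  · exact_mod_cast h2

theorem cov : S_cov := by
  refine ⟨lev_bd, ?_, ?_⟩
  · intro k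
    obtain ⟨h1, h2⟩ := lev_bd k
    have hp : (0 : ℝ) < 256 ^ lev k := by positivity
    unfold u
    have h3 : 0 ≤ ((k + 1 : ℝ) - 256 ^ lev k) / (255 * 256 ^ lev k) :=
      div_nonneg (by linarith) (by positivity)
    have h4 : ((k + 1 : ℝ) - 256 ^ lev k) / (255 * 256 ^ lev k) ≤ 1 := by
      rw [div_le_one (by positivity)]
      rw [pow_succ] at h2
      linarith
    constructor <;> linarith
  · intro t ht1 ht2 N
    set M : ℕ := 255 * 256 ^ N with hM
    have hP : 0 < 256 ^ N := by positivity
    have hM1 : 1 ≤ M := by omega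
    have hMr : (M : ℝ) = 255 * 256 ^ N := by rw [hM]; push_cast; rfl
    have hMpos : (0 : ℝ) < M := by exact_mod_cast hM1
    set n : ℕ := min ⌊(t - 1) * M⌋₊ (M - 1) with hn
    have hnM : n ≤ M - 1 := min_le_right _ _
    have h0 : 0 ≤ (t - 1) * M := mul_nonneg (by linarith) hMpos.le
    have hfl := Nat.floor_le h0
    have hfl2 := Nat.lt_floor_add_one ((t - 1) * M)
    have hdist : |(t - 1) * M - n| ≤ 1 := by
      rw [abs_le]
      rcases le_or_gt ⌊(t - 1) * M⌋₊ (M - 1) with h | h
      · have e : n = ⌊(t - 1) * M⌋₊ := min_eq_left h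
        rw [e]
        constructor <;> linarith
      · have e : n = M - 1 := min_eq_right h.le
        have e2 : (n : ℝ) = M - 1 := by
          rw [e]; push_cast [hM1]; ring
        have h5 : (M : ℝ) ≤ (⌊(t - 1) * M⌋₊ : ℝ) := by
          have : M ≤ ⌊(t - 1) * M⌋₊ := by omega
          exact_mod_cast this
        have h6 : (t - 1) * M ≤ M := by nlinarith
        rw [e2]
        constructor <;> linarith
    refine ⟨256 ^ N + n - 1, ?_, ?_⟩
    · have : N < 256 ^ N := Nat.lt_pow_self (by norm_num)
      omega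
    · have hk1 : 256 ^ N + n - 1 + 1 = 256 ^ N + n := by omega
      have hlev : lev (256 ^ N + n - 1) = N := by
        unfold lev
        rw [hk1, Nat.log_eq_iff (Or.inr ⟨by norm_num, by omega⟩)]
        refine ⟨by omega, ?_⟩
        rw [pow_succ]
        omega
      have hu : u (256 ^ N + n - 1) = 1 + n / M := by
        unfold u
        rw [hlev]
        have hc : (((256 ^ N + n - 1 : ℕ) : ℝ) + 1) = 256 ^ N + n := by
          have := congrArg (Nat.cast : ℕ → ℝ) hk1
          push_cast at this
          exact this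
        rw [hc, hMr]
        congr 2
        ring
      rw [hu, hlev]
      have e1 : t - (1 + n / M) = ((t - 1) * M - n) / M := by field_simp; ring
      rw [e1, abs_div, abs_of_pos hMpos, div_le_iff₀ hMpos]
      refine hdist.trans ?_
      have hP' : (0 : ℝ) < 256 ^ N := by positivity
      rw [hMr, one_div, inv_pow]
      have e2 : ((256 : ℝ) ^ N)⁻¹ * (255 * 256 ^ N) = 255 := by field_simp
      rw [e2]
      norm_num

end Pool.Agent.W45.KT
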