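import Pool.Agent.W23.KT.Defs
import Pool.Agent.W177.SG.TTL

/-!
KT project, task TTK: off-diagonal correlations for products of linear forms.
-/

set_option autoImplicit false

namespace Pool.Agent.W45.KT

open Finset
open Pool.Agent.H442R2
open Pool.Agent.H442R2.KF
open Pool.Agent.H442R2.BX
open Pool.Agent.H442R2.BX.TaskTT (Wt_nonneg Wt_le_one nuS_nonneg nuS_le restr abs_dsum_le)
open Pool.Agent.H442R2.BX.TaskEX (II II_one II_abs summable_bd nuS_eq nuS_abs)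
open Pool.Agent.W23.SG
open Pool.Agent.W23.KT
open Pool.Agent.W177.SG (crt2 summable_ind zero_set Wt_growth)

/-- `∑_n W(n) 1_{q | n} 1_{d | F(n)} 1_{d' | F'(n)}` -/
noncomputable def SK (N : ℕ) (F F' : ℤ → ℤ) (q d d' : ℕ) : ℝ :=
  ∑' n : ℤ, if ((q : ℤ) ∣ n ∧ (d : ℤ) ∣ F n ∧ (d' : ℤ) ∣ F' n) then Wt N n else 0

/-- `∑_d c_d (1_{d | F(n)} - w(d)/d)` -/
noncomputable def RG (w c : ℕ → ℝ) (X : ℕ) (F : ℤ → ℤ) (n : ℤ) : ℝ :=
  ∑ d ∈ Icc 1 X, c d * (II d (F n) - w d / d)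

lemma RK_eq (k : ℕ) (c : ℕ → ℝ) (X : ℕ) (S : Finset (ℤ × ℕ)) (n : ℤ) :
    RK k c X S n = RG (kw k) c X (Fp S) n := by
  unfold RK RG dk II
  refine Finset.sum_congr rfl fun d _ => ?_
  congr 2

/-! ### expansion -/

lemma ite_eq (N : ℕ) (F F' : ℤ → ℤ) (q d d' : ℕ) (n : ℤ) :
    (if ((q : ℤ) ∣ n ∧ (d : ℤ) ∣ F n ∧ (d' : ℤ) ∣ F' n) then Wt N n else 0) =
      Wt N n * (II q n * II d (F n) * II d' (F' n)) := by
  unfold II
  by_cases h1 : (q : ℤ) ∣ n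
  · by_cases h2 : (d : ℤ) ∣ F n
    · by_cases h3 : (d' : ℤ) ∣ F' n
      · rw [if_pos ⟨h1, h2, h3⟩, if_pos h1, if_pos h2, if_pos h3]; ring
      · rw [if_neg (fun h => h3 h.2.2), if_neg h3]; ring
    · rw [if_neg (fun h => h2 h.2.1), if_neg h2]; ring
  · rw [if_neg (fun h => h1 h.1), if_neg h1]; ring

lemma hasSum_SK (N : ℕ) (hN : 1 ≤ N) (F F' : ℤ → ℤ) (q d d' : ℕ) :
    HasSum (fun n : ℤ => Wt N n * (II q n * II d (F n) * II d' (F' n)))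
      (SK N F F' q d d') := by
  have h1 : Summable (fun n : ℤ => Wt N n * (II q n * II d (F n) * II d' (F' n))) := by
    refine summable_bd N hN _ 1 fun n => ?_
    rw [abs_mul, abs_mul]
    have k1 := II_abs q n
    have k2 := II_abs d (F n)
    have k3 := II_abs d' (F' n)
    calc |II q n| * |II d (F n)| * |II d' (F' n)| ≤ 1 * 1 * 1 := by gcongr
      _ = 1 := by norm_num
  have h2 : SK N F F' q d d' =
      ∑' n : ℤ, Wt N n * (II q n * II d (F n) * II d' (F' n)) := by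
    unfold SK
    exact tsum_congr fun n => ite_eq N F F' q d d' n
  rw [h2]
  exact h1.hasSum

lemma expand (N z X : ℕ) (hN : 1 ≤ N) (lam w c c' : ℕ → ℝ) (F F' : ℤ → ℤ) :
    ∑' n : ℤ, Wt N n * nuS lam z n * (RG w c X F n * RG w c' X F' n) =
      ∑ q₁ ∈ Icc 1 z, ∑ q₂ ∈ Icc 1 z, lam q₁ * lam q₂ * ∑ d ∈ Icc 1 X, ∑ d' ∈ Icc 1 X,
        c d * c' d' * (SK N F F' (Nat.lcm q₁ q₂) d d' -
          SK N F F' (Nat.lcm q₁ q₂) d 1 * (w d' / d') -
          SK N F F' (Nat.lcm q₁ q₂) 1 d' * (w d / d) +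
          SK N F F' (Nat.lcm q₁ q₂) 1 1 * (w d / d * (w d' / d'))) := by
  have hT : ∀ q d d' : ℕ, HasSum (fun n : ℤ =>
      Wt N n * (II q n * II d (F n) * II d' (F' n)) -
      Wt N n * (II q n * II d (F n) * II 1 (F' n)) * (w d' / d') -
      Wt N n * (II q n * II 1 (F n) * II d' (F' n)) * (w d / d) +
      Wt N n * (II q n * II 1 (F n) * II 1 (F' n)) * (w d / d * (w d' / d')))
      (SK N F F' q d d' - SK N F F' q d 1 * (w d' / d') - SK N F F' q 1 d' * (w d / d) +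
        SK N F F' q 1 1 * (w d / d * (w d' / d'))) := by
    intro q d d'
    exact (((hasSum_SK N hN F F' q d d').sub ((hasSum_SK N hN F F' q d 1).mul_right _)).sub
      ((hasSum_SK N hN F F' q 1 d').mul_right _)).add
      ((hasSum_SK N hN F F' q 1 1).mul_right _)
  have hS : HasSum (fun n : ℤ => ∑ q₁ ∈ Icc 1 z, ∑ q₂ ∈ Icc 1 z, lam q₁ * lam q₂ *
      ∑ d ∈ Icc 1 X, ∑ d' ∈ Icc 1 X, c d * c' d' * (
      Wt N n * (II (Nat.lcm q₁ q₂) n * II d (F n) * II d' (F' n)) -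
      Wt N n * (II (Nat.lcm q₁ q₂) n * II d (F n) * II 1 (F' n)) * (w d' / d') -
      Wt N n * (II (Nat.lcm q₁ q₂) n * II 1 (F n) * II d' (F' n)) * (w d / d) +
      Wt N n * (II (Nat.lcm q₁ q₂) n * II 1 (F n) * II 1 (F' n)) * (w d / d * (w d' / d'))))
      (∑ q₁ ∈ Icc 1 z, ∑ q₂ ∈ Icc 1 z, lam q₁ * lam q₂ * ∑ d ∈ Icc 1 X, ∑ d' ∈ Icc 1 X,
        c d * c' d' * (SK N F F' (Nat.lcm q₁ q₂) d d' -
          SK N F F' (Nat.lcm q₁ q₂) d 1 * (w d' / d') -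
          SK N F F' (Nat.lcm q₁ q₂) 1 d' * (w d / d) +
          SK N F F' (Nat.lcm q₁ q₂) 1 1 * (w d / d * (w d' / d')))) := by
    refine hasSum_sum fun q₁ _ => hasSum_sum fun q₂ _ => HasSum.mul_left _ ?_
    exact hasSum_sum fun d _ => hasSum_sum fun d' _ => HasSum.mul_left _ (hT _ d d')
  rw [← hS.tsum_eq]
  refine tsum_congr fun n => ?_
  rw [nuS_eq]
  have hR : RG w c X F n * RG w c' X F' n = ∑ d ∈ Icc 1 X, ∑ d' ∈ Icc 1 X, c d * c' d' *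
      ((II d (F n) - w d / (d : ℝ)) * (II d' (F' n) - w d' / (d' : ℝ))) := by
    unfold RG
    rw [Finset.sum_mul_sum]
    refine Finset.sum_congr rfl fun d _ => Finset.sum_congr rfl fun d' _ => ?_
    ring
  obtain ⟨G, hG⟩ : ∃ G, G = ∑ d ∈ Icc 1 X, ∑ d' ∈ Icc 1 X, c d * c' d' *
      ((II d (F n) - w d / (d : ℝ)) * (II d' (F' n) - w d' / (d' : ℝ))) := ⟨_, rfl⟩
  rw [hR, ← hG, Finset.mul_sum, Finset.sum_mul]
  refine Finset.sum_congr rfl fun q₁ _ => ?_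
  rw [Finset.mul_sum, Finset.sum_mul]
  refine Finset.sum_congr rfl fun q₂ _ => ?_
  rw [hG]
  have e : Wt N n * (lam q₁ * lam q₂ * II (Nat.lcm q₁ q₂) n) *
      (∑ d ∈ Icc 1 X, ∑ d' ∈ Icc 1 X, c d * c' d' *
      ((II d (F n) - w d / (d : ℝ)) * (II d' (F' n) - w d' / (d' : ℝ)))) =
      lam q₁ * lam q₂ * ((Wt N n * II (Nat.lcm q₁ q₂) n) *
      (∑ d ∈ Icc 1 X, ∑ d' ∈ Icc 1 X, c d * c' d' *
      ((II d (F n) - w d / (d : ℝ)) * (II d' (F' n) - w d' / (d' : ℝ))))) := by ring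
  rw [e, Finset.mul_sum]
  congr 1
  refine Finset.sum_congr rfl fun d _ => ?_
  rw [Finset.mul_sum]
  refine Finset.sum_congr rfl fun d' _ => ?_
  rw [II_one, II_one]
  ring

/-! ### congruences -/

/-- the indicator of the divisibility is the sum over the roots -/
lemma II_roots (F : ℤ → ℤ) (d : ℕ) (Ω : Finset ℕ) (hΩ : ∀ s ∈ Ω, s < d)
    (hF : ∀ n : ℤ, (d : ℤ) ∣ F n ↔ ∃ s ∈ Ω, (d : ℤ) ∣ n - s) (n : ℤ) :
    II d (F n) = ∑ s ∈ Ω, II d (n - s) := by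
  classical
  by_cases h : (d : ℤ) ∣ F n
  · obtain ⟨s, hs, hsn⟩ := (hF n).1 h
    rw [Finset.sum_eq_single s]
    · unfold II; rw [if_pos h, if_pos hsn]
    · intro t ht hts
      unfold II
      rw [if_neg]
      intro htn
      apply hts
      have h1 : (d : ℤ) ∣ (s : ℤ) - t := by
        have := dvd_sub htn hsn
        have e : n - (t : ℤ) - (n - s) = s - t := by ring
        rwa [e] at this
      have h2 : (s : ℤ) - t = 0 := by
        apply Int.eq_zero_of_abs_lt_dvd h1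
        have a1 := hΩ s hs
        have a2 := hΩ t ht
        rw [abs_lt]
        constructor <;> omega
      omega
    · intro h'; exact absurd hs h'
  · rw [Finset.sum_eq_zero]
    · unfold II; rw [if_neg h]
    · intro s hs
      unfold II
      rw [if_neg]
      intro hn
      exact h ((hF n).2 ⟨s, hs, hn⟩)

lemma SK_eval (N : ℕ) (hN : 1 ≤ N) (F F' : ℤ → ℤ) (q d d' : ℕ) (h1 : Nat.Coprime q d)
    (h2 : Nat.Coprime q d') (h3 : Nat.Coprime d d') (Ω Ω' : Finset ℕ)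
    (hΩ : ∀ s ∈ Ω, s < d) (hΩ' : ∀ s ∈ Ω', s < d')
    (hF : ∀ n : ℤ, (d : ℤ) ∣ F n ↔ ∃ s ∈ Ω, (d : ℤ) ∣ n - s)
    (hF' : ∀ n : ℤ, (d' : ℤ) ∣ F' n ↔ ∃ s ∈ Ω', (d' : ℤ) ∣ n - s)
    (M E : ℝ) (hP : ∀ c : ℤ,
      |∑' n : ℤ, (if ((q * d * d' : ℕ) : ℤ) ∣ n - c then Wt N n else 0) - M| ≤ E) :
    |SK N F F' q d d' - Ω.card * Ω'.card * M| ≤ Ω.card * Ω'.card * E := by
  have hprog : ∀ s s' : ℤ, |∑' n : ℤ, Wt N n * (II q n * II d (n - s) * II d' (n - s')) - M| ≤ E := by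
    intro s s'
    obtain ⟨r, hr⟩ := crt2 q d h1 0 s
    obtain ⟨t, ht⟩ := crt2 (q * d) d' (Nat.Coprime.mul_left h2 h3) r s'
    have e : ∑' n : ℤ, Wt N n * (II q n * II d (n - s) * II d' (n - s')) =
        ∑' n : ℤ, (if ((q * d * d' : ℕ) : ℤ) ∣ n - t then Wt N n else 0) := by
      refine tsum_congr fun n => ?_
      rw [← ite_eq N (fun n => n - s) (fun n => n - s') q d d' n]
      have e2 : ((q : ℤ) ∣ n ∧ (d : ℤ) ∣ n - s ∧ (d' : ℤ) ∣ n - s') ↔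
          ((q * d * d' : ℕ) : ℤ) ∣ n - t := by
        rw [← ht n, ← hr n, sub_zero]
        tauto
      by_cases h : ((q * d * d' : ℕ) : ℤ) ∣ n - t
      · rw [if_pos h, if_pos (e2.2 h)]
      · rw [if_neg h, if_neg (fun h' => h (e2.1 h'))]
    rw [e]
    exact hP t
  have hsum : SK N F F' q d d' = ∑ s ∈ Ω, ∑ s' ∈ Ω',
      ∑' n : ℤ, Wt N n * (II q n * II d (n - (s : ℤ)) * II d' (n - (s' : ℤ))) := by
    have hS : ∀ s s' : ℤ, HasSum (fun n : ℤ => Wt N n * (II q n * II d (n - s) * II d' (n - s')))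
        (∑' n : ℤ, Wt N n * (II q n * II d (n - s) * II d' (n - s'))) := fun s s' =>
      (hasSum_SK N hN (fun n => n - s) (fun n => n - s') q d d').summable.hasSum
    have hS2 : HasSum (fun n : ℤ => ∑ s ∈ Ω, ∑ s' ∈ Ω',
        Wt N n * (II q n * II d (n - (s : ℤ)) * II d' (n - (s' : ℤ))))
        (∑ s ∈ Ω, ∑ s' ∈ Ω',
        ∑' n : ℤ, Wt N n * (II q n * II d (n - (s : ℤ)) * II d' (n - (s' : ℤ)))) :=
      hasSum_sum fun s _ => hasSum_sum fun s' _ => hS s s'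
    rw [← (hasSum_SK N hN F F' q d d').tsum_eq, ← hS2.tsum_eq]
    refine tsum_congr fun n => ?_
    rw [II_roots F d Ω hΩ hF n, II_roots F' d' Ω' hΩ' hF' n]
    have e : Wt N n * (II q n * (∑ s ∈ Ω, II d (n - (s : ℤ))) * (∑ s' ∈ Ω', II d' (n - (s' : ℤ)))) =
        (Wt N n * II q n) *
          ((∑ s ∈ Ω, II d (n - (s : ℤ))) * (∑ s' ∈ Ω', II d' (n - (s' : ℤ)))) := by ring
    rw [e, Finset.sum_mul_sum, Finset.mul_sum]
    refine Finset.sum_congr rfl fun s _ => ?_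
    rw [Finset.mul_sum]
    refine Finset.sum_congr rfl fun s' _ => ?_
    ring
  have hM : (Ω.card : ℝ) * Ω'.card * M = ∑ s ∈ Ω, ∑ s' ∈ Ω', M := by
    simp only [Finset.sum_const, nsmul_eq_mul]; ring
  have hE : (Ω.card : ℝ) * Ω'.card * E = ∑ s ∈ Ω, ∑ s' ∈ Ω', E := by
    simp only [Finset.sum_const, nsmul_eq_mul]; ring
  rw [hsum, hM, hE, ← Finset.sum_sub_distrib]
  refine (Finset.abs_sum_le_sum_abs _ _).trans (Finset.sum_le_sum fun s _ => ?_)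
  rw [← Finset.sum_sub_distrib]
  exact (Finset.abs_sum_le_sum_abs _ _).trans (Finset.sum_le_sum fun s' _ => hprog s s')

lemma SK_nonneg (N : ℕ) (F F' : ℤ → ℤ) (q d d' : ℕ) : 0 ≤ SK N F F' q d d' := by
  unfold SK
  refine tsum_nonneg fun n => ?_
  split_ifs
  · exact Wt_nonneg _ _
  · exact le_rfl

lemma SK_le (N : ℕ) (hN : 1 ≤ N) (F F' : ℤ → ℤ) (q d d' : ℕ) :
    SK N F F' q d d' ≤
      ∑' n : ℤ, (if ((d : ℤ) ∣ F n ∧ (d' : ℤ) ∣ F' n) then Wt N n else 0) := by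
  unfold SK
  refine Summable.tsum_le_tsum (fun n => ?_) (summable_ind N hN _) (summable_ind N hN _)
  by_cases h : ((d : ℤ) ∣ F n ∧ (d' : ℤ) ∣ F' n)
  · rw [if_pos h]
    split_ifs
    · exact le_rfl
    · exact Wt_nonneg _ _
  · rw [if_neg h, if_neg (fun h' => h h'.2)]

/-! ### one pair `(q₁, q₂)` -/

lemma one_q (N q X : ℕ) (y : ℝ) (hN : 2 ≤ N) (hq : 1 ≤ q) (hXN : X ≤ N) (w : ℕ → ℝ) (C₁ : ℝ)
    (hC₁ : 1 ≤ C₁) (hw : ∀ d ∈ roughs y X, 0 ≤ w d ∧ w d ≤ C₁)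
    (S S1 : ℕ → ℕ → ℝ) (hS0 : ∀ d d', 0 ≤ S d d') (hS1 : ∀ d d', S d d' ≤ S1 d d')
    (c c' : ℕ → ℝ) (hcb : ∀ d, |c d| ≤ 1) (hcb' : ∀ d, |c' d| ≤ 1)
    (hcs : ∀ d, c d ≠ 0 → d ≤ X ∧ Rough y d) (hcs' : ∀ d, c' d ≠ 0 → d ≤ X ∧ Rough y d)
    (h00 : |S 1 1 - N / q| ≤ 1 / (N : ℝ) ^ 5)
    (h10 : ∀ d, c d ≠ 0 → |S d 1 - w d * (N / (q * d))| ≤ w d * (1 / (N : ℝ) ^ 5))
    (h01 : ∀ d, c' d ≠ 0 → |S 1 d - w d * (N / (q * d))| ≤ w d * (1 / (N : ℝ) ^ 5))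
    (h11 : ∀ d d', c d ≠ 0 → c' d' ≠ 0 → Nat.Coprime d d' →
      |S d d' - w d * w d' * (N / (q * d * d'))| ≤ w d * w d' * (1 / (N : ℝ) ^ 5))
    (BN BR : ℝ)
    (hNC : ∑ d ∈ roughs y X,
      ∑ d' ∈ (roughs y X).filter (fun d' => ¬ Nat.Coprime d d'), S1 d d' ≤ BN)
    (hRB : ∑ d ∈ roughs y X,
      ∑ d' ∈ (roughs y X).filter (fun d' => ¬ Nat.Coprime d d'), 1 / ((d : ℝ) * d') ≤ BR) :
    |∑ d ∈ Icc 1 X, ∑ d' ∈ Icc 1 X,
        c d * c' d' * (S d d' - S d 1 * (w d' / d') - S 1 d' * (w d / d) +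
          S 1 1 * (w d / d * (w d' / d')))| ≤
      4 * C₁ ^ 2 + BN + C₁ ^ 2 * N * BR := by
  classical
  have hN0 : (0 : ℝ) < N := by exact_mod_cast (by omega : 0 < N)
  have hN1 : (1 : ℝ) ≤ N := by exact_mod_cast (by omega : 1 ≤ N)
  have hq0 : (0 : ℝ) < q := by exact_mod_cast (by omega : 0 < q)
  have hq1 : (1 : ℝ) ≤ q := by exact_mod_cast hq
  have hC0 : 0 < C₁ := by linarith
  set R := roughs y X with hRdef
  have hRmem : ∀ d, d ∈ R ↔ (1 ≤ d ∧ d ≤ X) ∧ Rough y d := by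
    intro d
    rw [hRdef]; unfold roughs
    rw [Finset.mem_filter, Finset.mem_Icc]
  have hRI : R ⊆ Icc 1 X := by
    intro d hd
    exact Finset.mem_Icc.2 ((hRmem d).1 hd).1
  have hcR : ∀ d, c d ≠ 0 → d ∈ R := by
    intro d hd
    obtain ⟨h1, h2⟩ := hcs d hd
    exact (hRmem d).2 ⟨⟨h2.1.le, h1⟩, h2⟩
  have hcR' : ∀ d, c' d ≠ 0 → d ∈ R := by
    intro d hd
    obtain ⟨h1, h2⟩ := hcs' d hd
    exact (hRmem d).2 ⟨⟨h2.1.le, h1⟩, h2⟩
  rw [restr R (Icc 1 X) hRI c c' hcR hcR'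
    (fun d d' => S d d' - S d 1 * (w d' / d') - S 1 d' * (w d / d) +
          S 1 1 * (w d / d * (w d' / d')))]
  set B : ℕ → ℕ → ℝ := fun d d' => S d d' - S d 1 * (w d' / d') - S 1 d' * (w d / d) +
          S 1 1 * (w d / d * (w d' / d')) with hBdef
  change |∑ d ∈ R, ∑ d' ∈ R, c d * c' d' * B d d'| ≤ _
  have hE : |∑ d ∈ R, ∑ d' ∈ R, c d * c' d' * B d d'| ≤
      ∑ d ∈ R, ∑ d' ∈ R, (4 * C₁ ^ 2 / (N : ℝ) ^ 5 + (if Nat.Coprime d d' then 0 else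
        S1 d d' + C₁ ^ 2 * N * (1 / ((d : ℝ) * d')))) := by
    refine abs_dsum_le R c c' hcb hcb' _ _ ?_ ?_
    · intro d hd d' hd' hcd hcd'
      obtain ⟨⟨hd1, hdX⟩, -⟩ := (hRmem d).1 hd
      obtain ⟨⟨hd1', hdX'⟩, -⟩ := (hRmem d').1 hd'
      obtain ⟨w0, w1⟩ := hw d hd
      obtain ⟨w0', w1'⟩ := hw d' hd'
      have hdr : (1 : ℝ) ≤ d := by exact_mod_cast hd1
      have hdr' : (1 : ℝ) ≤ d' := by exact_mod_cast hd1'
      have hd0 : (0 : ℝ) < d := by linarith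
      have hd0' : (0 : ℝ) < d' := by linarith
      have e1 := h10 d hcd
      have e2 := h01 d' hcd'
      have hN5 : (0 : ℝ) < 1 / (N : ℝ) ^ 5 := by positivity
      have ww : w d * w d' ≤ C₁ ^ 2 := by
        rw [sq]; exact mul_le_mul w1 w1' w0' hC0.le
      have ww0 : 0 ≤ w d * w d' := mul_nonneg w0 w0'
      have v0 : 0 ≤ w d / d := div_nonneg w0 hd0.le
      have v0' : 0 ≤ w d' / d' := div_nonneg w0' hd0'.le
      have v1 : w d / d ≤ w d := div_le_self w0 hdr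
      have v1' : w d' / d' ≤ w d' := div_le_self w0' hdr'
      have wwN : w d * w d' * (1 / (N : ℝ) ^ 5) ≤ C₁ ^ 2 * (1 / (N : ℝ) ^ 5) :=
        mul_le_mul_of_nonneg_right ww hN5.le
      have f1 : |(S d 1 - w d * (N / (q * d))) * (w d' / d')| ≤ C₁ ^ 2 * (1 / (N : ℝ) ^ 5) := by
        rw [abs_mul, abs_of_nonneg v0']
        calc |S d 1 - w d * (N / (q * d))| * (w d' / d')
            ≤ (w d * (1 / (N : ℝ) ^ 5)) * w d' :=
              mul_le_mul e1 v1' v0' (mul_nonneg w0 hN5.le)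
          _ = w d * w d' * (1 / (N : ℝ) ^ 5) := by ring
          _ ≤ _ := wwN
      have f2 : |(S 1 d' - w d' * (N / (q * d'))) * (w d / d)| ≤ C₁ ^ 2 * (1 / (N : ℝ) ^ 5) := by
        rw [abs_mul, abs_of_nonneg v0]
        calc |S 1 d' - w d' * (N / (q * d'))| * (w d / d)
            ≤ (w d' * (1 / (N : ℝ) ^ 5)) * w d :=
              mul_le_mul e2 v1 v0 (mul_nonneg w0' hN5.le)
          _ = w d * w d' * (1 / (N : ℝ) ^ 5) := by ring
          _ ≤ _ := wwN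
      have f3 : |(S 1 1 - N / q) * (w d / d * (w d' / d'))| ≤ C₁ ^ 2 * (1 / (N : ℝ) ^ 5) := by
        rw [abs_mul, abs_of_nonneg (mul_nonneg v0 v0')]
        calc |S 1 1 - N / q| * (w d / d * (w d' / d'))
            ≤ (1 / (N : ℝ) ^ 5) * (w d * w d') :=
              mul_le_mul h00 (mul_le_mul v1 v1' v0' w0) (mul_nonneg v0 v0') hN5.le
          _ = w d * w d' * (1 / (N : ℝ) ^ 5) := by ring
          _ ≤ _ := wwN
      have hid : B d d' = (S d d' - w d * w d' * (N / (q * d * d'))) -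
          (S d 1 - w d * (N / (q * d))) * (w d' / d') -
          (S 1 d' - w d' * (N / (q * d'))) * (w d / d) +
          (S 1 1 - N / q) * (w d / d * (w d' / d')) := by
        rw [hBdef]
        field_simp
        ring
      have h45 : 4 * C₁ ^ 2 / (N : ℝ) ^ 5 = C₁ ^ 2 * (1 / (N : ℝ) ^ 5) +
          C₁ ^ 2 * (1 / (N : ℝ) ^ 5) + C₁ ^ 2 * (1 / (N : ℝ) ^ 5) +
          C₁ ^ 2 * (1 / (N : ℝ) ^ 5) := by ring
      have h4p : 0 ≤ C₁ ^ 2 * (1 / (N : ℝ) ^ 5) := by positivity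
      have g1 := abs_le.1 f1
      have g2 := abs_le.1 f2
      have g3 := abs_le.1 f3
      by_cases hcop : Nat.Coprime d d'
      · have g0 := abs_le.1 ((h11 d d' hcd hcd' hcop).trans wwN)
        rw [if_pos hcop, add_zero, hid]
        rw [abs_le, h45]
        constructor <;> linarith [g0.1, g0.2, g1.1, g1.2, g2.1, g2.2, g3.1, g3.2]
      · rw [if_neg hcop, hid]
        have hs := hS0 d d'
        have hs1 := hS1 d d'
        have hx : (0 : ℝ) ≤ w d * w d' * (N / (q * d * d')) := by positivity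
        have hx2 : w d * w d' * (N / (q * d * d')) ≤ C₁ ^ 2 * N * (1 / ((d : ℝ) * d')) := by
          have h5 : (N : ℝ) / (q * d * d') ≤ N * (1 / ((d : ℝ) * d')) := by
            rw [mul_one_div]
            apply div_le_div_of_nonneg_left hN0.le (by positivity)
            have : (0 : ℝ) < d * d' := by positivity
            nlinarith
          calc w d * w d' * (N / (q * d * d')) ≤ C₁ ^ 2 * (N * (1 / ((d : ℝ) * d'))) :=
                mul_le_mul ww h5 (by positivity) (by positivity)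
            _ = _ := by ring
        rw [abs_le, h45]
        constructor <;> linarith [g1.1, g1.2, g2.1, g2.2, g3.1, g3.2]
    · intro d hd d' hd'
      have hs := (hS0 d d').trans (hS1 d d')
      have h5 : (0 : ℝ) ≤ 4 * C₁ ^ 2 / (N : ℝ) ^ 5 := by positivity
      split_ifs
      · linarith
      · have : (0 : ℝ) ≤ C₁ ^ 2 * N * (1 / ((d : ℝ) * d')) := by positivity
        linarith
  refine hE.trans ?_
  have h1 : ∑ d ∈ R, ∑ d' ∈ R, (4 * C₁ ^ 2 / (N : ℝ) ^ 5 + (if Nat.Coprime d d' then 0 else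
      S1 d d' + C₁ ^ 2 * N * (1 / ((d : ℝ) * d')))) =
      (R.card : ℝ) ^ 2 * (4 * C₁ ^ 2 / (N : ℝ) ^ 5) +
      ∑ d ∈ R, ∑ d' ∈ R.filter (fun d' => ¬ Nat.Coprime d d'), S1 d d' +
      C₁ ^ 2 * N * ∑ d ∈ R, ∑ d' ∈ R.filter (fun d' => ¬ Nat.Coprime d d'),
        1 / ((d : ℝ) * d') := by
    rw [Finset.mul_sum]
    have h2 : (R.card : ℝ) ^ 2 * (4 * C₁ ^ 2 / (N : ℝ) ^ 5) =
        ∑ d ∈ R, ∑ d' ∈ R, 4 * C₁ ^ 2 / (N : ℝ) ^ 5 := by
      simp only [Finset.sum_const, nsmul_eq_mul]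
      ring
    rw [h2, ← Finset.sum_add_distrib, ← Finset.sum_add_distrib]
    refine Finset.sum_congr rfl fun d _ => ?_
    rw [Finset.mul_sum, Finset.sum_filter, Finset.sum_filter, ← Finset.sum_add_distrib,
      ← Finset.sum_add_distrib]
    refine Finset.sum_congr rfl fun d' _ => ?_
    by_cases h : Nat.Coprime d d'
    · simp [h]
    · simp [h]
      ring
  rw [h1]
  have hcard : (R.card : ℝ) ≤ N := by
    have h3 : R.card ≤ (Icc 1 X).card := Finset.card_le_card hRI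
    rw [Nat.card_Icc] at h3
    exact_mod_cast (by omega : R.card ≤ N)
  have h4 : (R.card : ℝ) ^ 2 * (4 * C₁ ^ 2 / (N : ℝ) ^ 5) ≤ 4 * C₁ ^ 2 := by
    rw [mul_div_assoc', div_le_iff₀ (by positivity)]
    have h5 : (R.card : ℝ) ^ 2 ≤ (N : ℝ) ^ 2 := pow_le_pow_left₀ (by positivity) hcard 2
    have h6 : (N : ℝ) ^ 2 ≤ (N : ℝ) ^ 5 := pow_le_pow_right₀ hN1 (by norm_num)
    have h7 : 0 ≤ 4 * C₁ ^ 2 := by positivity
    calc (R.card : ℝ) ^ 2 * (4 * C₁ ^ 2) ≤ (N : ℝ) ^ 5 * (4 * C₁ ^ 2) :=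
          mul_le_mul_of_nonneg_right (h5.trans h6) h7
      _ = 4 * C₁ ^ 2 * (N : ℝ) ^ 5 := by ring
  have h7 : C₁ ^ 2 * (N : ℝ) * ∑ d ∈ R, ∑ d' ∈ R.filter (fun d' => ¬ Nat.Coprime d d'),
        1 / ((d : ℝ) * d') ≤ C₁ ^ 2 * N * BR :=
    mul_le_mul_of_nonneg_left hRB (by positivity)
  linarith

/-! ### the weights -/

lemma kw_nonneg (k d : ℕ) : 0 ≤ kw k d := by unfold kw; positivity

lemma kw_one (k : ℕ) : kw k 1 = 1 := by unfold kw; simp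

lemma rough_pow_le (y : ℝ) (hy : 0 ≤ y) (d : ℕ) (hd : Rough y d) :
    y ^ d.primeFactors.card ≤ (d : ℝ) := by
  have h1 : y ^ d.primeFactors.card ≤ ∏ p ∈ d.primeFactors, (p : ℝ) := by
    rw [← Finset.prod_const]
    refine Finset.prod_le_prod (fun _ _ => hy) fun p hp => ?_
    exact (hd.2 p (Nat.prime_of_mem_primeFactors hp) (Nat.dvd_of_mem_primeFactors hp)).le
  have h2 : ∏ p ∈ d.primeFactors, p ≤ d :=
    Nat.le_of_dvd (by have := hd.1; omega) (Nat.prod_primeFactors_dvd d)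
  have h3 : (∏ p ∈ d.primeFactors, (p : ℝ)) ≤ (d : ℝ) := by
    have h4 : ((∏ p ∈ d.primeFactors, p : ℕ) : ℝ) ≤ (d : ℝ) := Nat.cast_le.2 h2
    rwa [Nat.cast_prod] at h4
  exact h1.trans h3

lemma kw_le (k N : ℕ) (ε : ℝ) (hε : 0 < ε) (hN : 2 ≤ N) (d : ℕ) (hdN : d ≤ N)
    (hd : Rough ((N : ℝ) ^ ε) d) : kw k d ≤ ((k : ℝ) + 1) ^ (1 / ε) := by
  have hN1 : (1 : ℝ) < N := by exact_mod_cast (by omega : 1 < N)
  have hN0 : (0 : ℝ) < N := by linarith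
  have h1 := rough_pow_le _ (by positivity) d hd
  have h2 : (N : ℝ) ^ (ε * d.primeFactors.card) ≤ (N : ℝ) ^ (1 : ℝ) := by
    rw [Real.rpow_mul hN0.le, Real.rpow_natCast, Real.rpow_one]
    exact h1.trans (by exact_mod_cast hdN)
  have h3 : ε * d.primeFactors.card ≤ 1 := (Real.rpow_le_rpow_left_iff hN1).1 h2
  have h4 : (d.primeFactors.card : ℝ) ≤ 1 / ε := by
    rw [le_div_iff₀ hε]; linarith
  unfold kw
  calc (k : ℝ) ^ d.primeFactors.card ≤ ((k : ℝ) + 1) ^ d.primeFactors.card :=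
        pow_le_pow_left₀ (by positivity) (by linarith) _
    _ = ((k : ℝ) + 1) ^ (d.primeFactors.card : ℝ) := (Real.rpow_natCast _ _).symm
    _ ≤ _ := Real.rpow_le_rpow_of_exponent_le (by
        have : (0 : ℝ) ≤ k := by positivity
        linarith) h4

lemma Mo_rough (y : ℝ) (X : ℕ) (S : Finset (ℤ × ℕ)) (d : ℕ) (h : Mo y X S d) : Rough y d :=
  ⟨h.1, fun p hp hpd => (h.2.2.2 p hp hpd).1⟩

lemma abs_RG_le (w : ℕ → ℝ) (C₁ : ℝ) (c : ℕ → ℝ) (hc : ∀ d, |c d| ≤ 1)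
    (hw : ∀ d, c d ≠ 0 → 0 ≤ w d ∧ w d ≤ C₁) (hC₁ : 0 ≤ C₁) (X : ℕ) (F : ℤ → ℤ) (n : ℤ) :
    |RG w c X F n| ≤ X * (1 + C₁) := by
  unfold RG
  calc |∑ d ∈ Icc 1 X, c d * (II d (F n) - w d / d)| ≤
        ∑ d ∈ Icc 1 X, |c d * (II d (F n) - w d / d)| :=
        Finset.abs_sum_le_sum_abs _ _
    _ ≤ ∑ d ∈ Icc 1 X, (1 + C₁) := by
        refine Finset.sum_le_sum fun d hd => ?_
        by_cases h0 : c d = 0
        · rw [h0, zero_mul, abs_zero]; linarith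
        obtain ⟨w0, w1⟩ := hw d h0
        rw [abs_mul]
        have h1 := hc d
        have hd1 : (1 : ℝ) ≤ d := by exact_mod_cast (Finset.mem_Icc.1 hd).1
        have v0 : 0 ≤ w d / d := div_nonneg w0 (by linarith)
        have v1 : w d / d ≤ w d := div_le_self w0 hd1
        have h2 : |II d (F n) - w d / d| ≤ 1 + C₁ := by
          have h3 := abs_le.1 (II_abs d (F n))
          rw [abs_le]
          constructor <;> linarith [h3.1, h3.2]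
        calc |c d| * |II d (F n) - w d / d| ≤ 1 * (1 + C₁) :=
              mul_le_mul h1 h2 (abs_nonneg _) zero_le_one
          _ = 1 + C₁ := one_mul _
    _ = X * (1 + C₁) := by
        rw [Finset.sum_const, Nat.card_Icc, Nat.add_sub_cancel, nsmul_eq_mul]

lemma summ (N z : ℕ) (hN : 1 ≤ N) (lam : ℕ → ℝ) (F F' : ℤ → ℝ) (B B' : ℝ)
    (hF : ∀ n, |F n| ≤ B) (hF' : ∀ n, |F' n| ≤ B') :
    Summable (fun n : ℤ => Wt N n * nuS lam z n * (F n * F' n)) := by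
  have h := summable_bd N hN (fun n => nuS lam z n * (F n * F' n))
    ((∑ q₁ ∈ Icc 1 z, ∑ q₂ ∈ Icc 1 z, |lam q₁ * lam q₂|) * (B * B')) (fun n => by
      rw [abs_mul, abs_mul]
      have k1 := nuS_abs lam z n
      have k2 := hF n
      have k3 := hF' n
      have k0 : 0 ≤ B := (abs_nonneg _).trans k2
      exact mul_le_mul k1 (mul_le_mul k2 k3 (abs_nonneg _) k0) (by positivity)
        (Finset.sum_nonneg fun _ _ => Finset.sum_nonneg fun _ _ => abs_nonneg _))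
  refine h.congr fun n => ?_
  ring

/-! ### the zeros of the products -/

lemma zeros (k M N : ℕ) (S : Finset (ℤ × ℕ)) (hS : Sys k M N S) :
    ∃ Z : Finset ℤ, Z.card ≤ k ∧ ∀ n, n ∈ Z ↔ Fp S n = 0 := by
  classical
  have h : ∀ L : ℤ × ℕ, ∃ Z : Finset ℤ, L ∈ S → (Z.card ≤ 1 ∧ ∀ n, n ∈ Z ↔ lf L n = 0) := by
    intro L
    by_cases hL : L ∈ S
    · obtain ⟨Z, hZ⟩ := zero_set L (hS.fo L hL).b1
      exact ⟨Z, fun _ => hZ⟩
    · exact ⟨∅, fun h => absurd h hL⟩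
  choose Z hZ using h
  refine ⟨S.biUnion Z, ?_, fun n => ?_⟩
  · calc (S.biUnion Z).card ≤ ∑ L ∈ S, (Z L).card := Finset.card_biUnion_le
      _ ≤ ∑ L ∈ S, 1 := Finset.sum_le_sum fun L hL => (hZ L hL).1
      _ = k := by rw [Finset.sum_const, smul_eq_mul, mul_one, hS.card]
  · rw [Finset.mem_biUnion]
    unfold Fp
    rw [Finset.prod_eq_zero_iff]
    constructor
    · rintro ⟨L, hL, hn⟩
      exact ⟨L, hL, ((hZ L hL).2 n).1 hn⟩
    · rintro ⟨L, hL, hn⟩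
      exact ⟨L, hL, ((hZ L hL).2 n).2 hn⟩

lemma zero_ne (k M N : ℕ) (S S' : Finset (ℤ × ℕ)) (hS : Sys k M N S) (hS' : Sys k M N S')
    (hd : Disjoint S S') (n : ℤ) (h : Fp S n = 0) : Fp S' n ≠ 0 := by
  intro h'
  unfold Fp at h h'
  rw [Finset.prod_eq_zero_iff] at h h'
  obtain ⟨L, hL, hL0⟩ := h
  obtain ⟨L', hL', hL0'⟩ := h'
  have key : ∀ M' : ℤ × ℕ, FoM M N M' → lf M' n = 0 → M'.2 = 1 ∧ M'.1 = -n := by
    intro M' hM h0
    unfold lf at h0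
    have h1 : (M'.2 : ℤ) ∣ M'.1 := ⟨-n, by linear_combination h0⟩
    have h2 : (M'.2 : ℤ) ∣ (Int.gcd M'.1 M'.2 : ℤ) := Int.dvd_coe_gcd h1 dvd_rfl
    rw [hM.cop] at h2
    have h3 : M'.2 = 1 := by
      have := Int.natCast_dvd_natCast.1 h2
      exact Nat.dvd_one.1 this
    refine ⟨h3, ?_⟩
    rw [h3] at h0
    push_cast at h0
    linarith
  obtain ⟨a1, a2⟩ := key L (hS.fo L hL) hL0
  obtain ⟨b1, b2⟩ := key L' (hS'.fo L' hL') hL0'
  have : L = L' := Prod.ext (a2.trans b2.symm) (a1.trans b1.symm)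
  exact Finset.disjoint_left.1 hd hL (this ▸ hL')

/-- the trivial bound -/
lemma triv (N z X : ℕ) (hN : 1 ≤ N) (hz : z ≤ N) (hX : X ≤ N) (lam : ℕ → ℝ)
    (hl : ∀ q, |lam q| ≤ 1) (r r' : ℤ → ℝ) (A : ℝ) (hA : 0 ≤ A) (hr : ∀ n, |r n| ≤ X * A)
    (hr' : ∀ n, |r' n| ≤ X * A) :
    |∑' n : ℤ, Wt N n * nuS lam z n * (r n * r' n)| ≤
      (∑' n : ℤ, Wt N n) * ((N : ℝ) ^ 4 * A ^ 2) := by
  have h1 := (KF.TaskS.summable_Wt N hN).hasSum.mul_right ((N : ℝ) ^ 4 * A ^ 2)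
  rw [← Real.norm_eq_abs]
  refine tsum_of_norm_bounded h1 fun n => ?_
  have hzN : (z : ℝ) ≤ N := by exact_mod_cast hz
  have hXN : (X : ℝ) ≤ N := by exact_mod_cast hX
  have hz0 : (0 : ℝ) ≤ z := by positivity
  have hX0 : (0 : ℝ) ≤ X := by positivity
  have hN0 : (0 : ℝ) ≤ N := by positivity
  have h2 : nuS lam z n ≤ (N : ℝ) ^ 2 :=
    (nuS_le lam hl z n).trans (pow_le_pow_left₀ hz0 hzN 2)
  have h3 : |r n| ≤ N * A := (hr n).trans (mul_le_mul_of_nonneg_right hXN hA)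
  have h4 : |r' n| ≤ N * A := (hr' n).trans (mul_le_mul_of_nonneg_right hXN hA)
  rw [Real.norm_eq_abs, abs_mul, abs_mul, abs_mul, abs_of_nonneg (Wt_nonneg N n),
    abs_of_nonneg (nuS_nonneg lam z n), mul_assoc]
  refine mul_le_mul_of_nonneg_left ?_ (Wt_nonneg N n)
  calc nuS lam z n * (|r n| * |r' n|) ≤ (N : ℝ) ^ 2 * ((N * A) * (N * A)) :=
        mul_le_mul h2 (mul_le_mul h3 h4 (abs_nonneg _) (by positivity)) (by positivity)
          (by positivity)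
    _ = (N : ℝ) ^ 4 * A ^ 2 := by ring

theorem TTK (hPA : St_PA) (hRSK : St_RSK) (hPBK : St_PBK) (hNCK : St_NCK) (hRB : BX.St_RB) :
    St_TTK := by
  intro k M θ₀ ε hθ₀ hε
  obtain ⟨θ, hθdef⟩ : ∃ θ : ℝ, θ = max θ₀ 0 := ⟨_, rfl⟩
  have hθ : θ < 1 / 2 := by rw [hθdef]; exact max_lt hθ₀ (by norm_num)
  have hθ0 : 0 ≤ θ := by rw [hθdef]; exact le_max_right _ _
  have hθθ : θ₀ ≤ θ := by rw [hθdef]; exact le_max_left _ _
  obtain ⟨N₁, hPA'⟩ := hPA ((1 - 2 * θ) / 2) (by linarith)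
  obtain ⟨C₂, hC₂, hNC'⟩ := hNCK k M ε hε
  obtain ⟨C₃, hC₃, hRB'⟩ := hRB ε hε
  obtain ⟨N₂, C₄, hC₄, hPB'⟩ := hPBK k M ε hε
  obtain ⟨C₁, hC₁def⟩ : ∃ C₁ : ℝ, C₁ = ((k : ℝ) + 1) ^ (1 / ε) := ⟨_, rfl⟩
  have hC₁ : 1 ≤ C₁ := by
    rw [hC₁def]
    refine Real.one_le_rpow ?_ (by positivity)
    have : (0 : ℝ) ≤ k := by positivity
    linarith
  have hC₁0 : 0 < C₁ := by linarith
  obtain ⟨ε₀, hε₀, he1, he3⟩ : ∃ ε₀ : ℝ, 0 < ε₀ ∧ ε₀ ≤ (1 - 2 * θ) / 8 ∧ ε₀ ≤ ε / 16 := by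
    refine ⟨min ((1 - 2 * θ) / 8) (ε / 16), ?_, min_le_left _ _, min_le_right _ _⟩
    exact lt_min (by linarith) (by positivity)
  obtain ⟨η, hη, hh2, hh3⟩ : ∃ η : ℝ, 0 < η ∧ η ≤ ε / 4 ∧ η ≤ 1 / 4 := by
    refine ⟨min (ε / 4) (1 / 4), ?_, min_le_left _ _, min_le_right _ _⟩
    exact lt_min (by positivity) (by norm_num)
  set N₀ := max N₁ N₂ with hN₀
  obtain ⟨Bs, hBs⟩ : ∃ Bs : ℝ, Bs = ∑ N ∈ range N₀,
    (∑' n : ℤ, Wt N n) * ((N : ℝ) ^ 4 * (1 + C₁) ^ 2) := ⟨_, rfl⟩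
  have hWs : ∀ N : ℕ, 0 ≤ (∑' n : ℤ, Wt N n) * ((N : ℝ) ^ 4 * (1 + C₁) ^ 2) := fun N =>
    mul_nonneg (tsum_nonneg fun n => Wt_nonneg N n) (by positivity)
  have hBs0 : 0 ≤ Bs := by rw [hBs]; exact Finset.sum_nonneg fun N _ => hWs N
  obtain ⟨D, hD⟩ : ∃ D : ℝ, D = k * ((1 + C₁) * (2 * C₄)) + k * ((1 + C₁) * (2 * C₄)) := ⟨_, rfl⟩
  have hD0 : 0 ≤ D := by rw [hD]; positivity
  refine ⟨ε₀, η, Bs + (4 * C₁ ^ 2 + 2 * C₂ + C₁ ^ 2 * C₃ + D), hε₀, hη, by positivity, ?_⟩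
  intro N z X hN hz hzN hXθ₀ lam hlam S S' hS hS' hdis c c' hc hc'
  have hN0 : (0 : ℝ) < N := by exact_mod_cast (by omega : 0 < N)
  have hN1 : (1 : ℝ) ≤ N := by exact_mod_cast (by omega : 1 ≤ N)
  have hN1' : (1 : ℝ) < N := by exact_mod_cast (by omega : 1 < N)
  have hNle : ∀ s t : ℝ, s ≤ t → (N : ℝ) ^ s ≤ (N : ℝ) ^ t := fun s t hst =>
    Real.rpow_le_rpow_of_exponent_le hN1 hst
  have hXθ : (X : ℝ) ≤ (N : ℝ) ^ θ := hXθ₀.trans (hNle _ _ hθθ)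
  have hzN' : z ≤ N := by
    have h1 : (z : ℝ) ≤ N := by
      calc (z : ℝ) ≤ (N : ℝ) ^ ε₀ := hzN
        _ ≤ (N : ℝ) ^ (1 : ℝ) := hNle _ _ (by linarith)
        _ = N := Real.rpow_one _
    exact_mod_cast h1
  have hXN' : X ≤ N := by
    have h1 : (X : ℝ) ≤ N := by
      calc (X : ℝ) ≤ (N : ℝ) ^ θ := hXθ
        _ ≤ (N : ℝ) ^ (1 : ℝ) := hNle _ _ (by linarith)
        _ = N := Real.rpow_one _
    exact_mod_cast h1
  have hNη : (1 : ℝ) ≤ (N : ℝ) ^ (1 - η) := Real.one_le_rpow hN1 (by linarith)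
  have hkw : ∀ d : ℕ, d ≤ X → Rough ((N : ℝ) ^ ε) d → 0 ≤ kw k d ∧ kw k d ≤ C₁ := by
    intro d hdX hd
    refine ⟨kw_nonneg k d, ?_⟩
    rw [hC₁def]
    exact kw_le k N ε hε hN d (hdX.trans hXN') hd
  have hkwc : ∀ (T : Finset (ℤ × ℕ)) (u : ℕ → ℝ), CofK ((N : ℝ) ^ ε) X T u → ∀ d, u d ≠ 0 →
      0 ≤ kw k d ∧ kw k d ≤ C₁ := by
    intro T u hu d hd
    have h1 := hu.supp d hd
    exact hkw d h1.2.1 (Mo_rough _ X T d h1)
  have hRKb : ∀ (T : Finset (ℤ × ℕ)) (u : ℕ → ℝ), CofK ((N : ℝ) ^ ε) X T u → ∀ n : ℤ,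
      |RK k u X T n| ≤ X * (1 + C₁) := by
    intro T u hu n
    rw [RK_eq]
    exact abs_RG_le (kw k) C₁ u hu.bd (hkwc T u hu) hC₁0.le X (Fp T) n
  have hrKb : ∀ (T : Finset (ℤ × ℕ)) (u : ℕ → ℝ), CofK ((N : ℝ) ^ ε) X T u → ∀ n : ℤ,
      |rK k u X T n| ≤ X * (1 + C₁) := by
    intro T u hu n
    unfold rK
    split_ifs
    · rw [abs_zero]; positivity
    · exact hRKb T u hu n
  by_cases hsmall : N < N₀
  · -- small N
    have h1 := triv N z X (by omega) hzN' hXN' lam hlam.bd (rK k c X S) (rK k c' X S') (1 + C₁)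
      (by positivity) (hrKb S c hc) (hrKb S' c' hc')
    have h2 : (∑' n : ℤ, Wt N n) * ((N : ℝ) ^ 4 * (1 + C₁) ^ 2) ≤ Bs := by
      rw [hBs]
      exact Finset.single_le_sum
        (f := fun N : ℕ => (∑' n : ℤ, Wt N n) * ((N : ℝ) ^ 4 * (1 + C₁) ^ 2))
        (fun N _ => hWs N) (Finset.mem_range.2 hsmall)
    have h3 : Bs ≤ Bs + (4 * C₁ ^ 2 + 2 * C₂ + C₁ ^ 2 * C₃ + D) := by
      have : 0 ≤ 4 * C₁ ^ 2 + 2 * C₂ + C₁ ^ 2 * C₃ + D := by positivity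
      linarith
    calc _ ≤ Bs := h1.trans h2
      _ ≤ Bs + (4 * C₁ ^ 2 + 2 * C₂ + C₁ ^ 2 * C₃ + D) := h3
      _ ≤ (Bs + (4 * C₁ ^ 2 + 2 * C₂ + C₁ ^ 2 * C₃ + D)) * (N : ℝ) ^ (1 - η) :=
          le_mul_of_one_le_right (by positivity) hNη
  push Not at hsmall
  have hNN1 : N₁ ≤ N := (le_max_left _ _).trans hsmall
  have hNN2 : N₂ ≤ N := (le_max_right _ _).trans hsmall
  have hzε : (z : ℝ) ≤ (N : ℝ) ^ ε := hzN.trans (hNle _ _ (by linarith))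
  -- one pair (q₁, q₂)
  set K : ℝ := 4 * C₁ ^ 2 + C₂ * ((N : ℝ) ^ (1 - ε) + X) +
    C₁ ^ 2 * N * (C₃ * (N : ℝ) ^ (-(ε / 2))) with hK
  have hK0 : 0 ≤ K := by positivity
  have hz2 : (z : ℝ) ^ 2 ≤ (N : ℝ) ^ (2 * ε₀) := by
    calc (z : ℝ) ^ 2 ≤ ((N : ℝ) ^ ε₀) ^ 2 := pow_le_pow_left₀ (by positivity) hzN 2
      _ = (N : ℝ) ^ (2 * ε₀) := by
        rw [← Real.rpow_natCast, ← Real.rpow_mul hN0.le]
        congr 1
        push_cast
        ring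
  have hpair : ∀ q₁ ∈ Icc 1 z, ∀ q₂ ∈ Icc 1 z, lam q₁ ≠ 0 → lam q₂ ≠ 0 →
      |∑ d ∈ Icc 1 X, ∑ d' ∈ Icc 1 X,
        c d * c' d' * (SK N (Fp S) (Fp S') (Nat.lcm q₁ q₂) d d' -
          SK N (Fp S) (Fp S') (Nat.lcm q₁ q₂) d 1 * (kw k d' / d') -
          SK N (Fp S) (Fp S') (Nat.lcm q₁ q₂) 1 d' * (kw k d / d) +
          SK N (Fp S) (Fp S') (Nat.lcm q₁ q₂) 1 1 * (kw k d / d * (kw k d' / d')))| ≤ K := by
    intro q₁ hq₁ q₂ hq₂ hl₁ hl₂
    obtain ⟨h11, h12, h13⟩ := hlam.supp q₁ hl₁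
    obtain ⟨h21, h22, h23⟩ := hlam.supp q₂ hl₂
    have hqpos' : 1 ≤ Nat.lcm q₁ q₂ := Nat.lcm_pos (by omega) (by omega)
    have hqdvd' : Nat.lcm q₁ q₂ ∣ q₁ * q₂ := Nat.lcm_dvd_mul q₁ q₂
    generalize Nat.lcm q₁ q₂ = q at hqpos' hqdvd' ⊢
    have hqpos := hqpos'
    have hqle : (q : ℝ) ≤ (N : ℝ) ^ (2 * ε₀) := by
      have h1 : q ≤ q₁ * q₂ := Nat.le_of_dvd (Nat.mul_pos (by omega) (by omega)) hqdvd'
      have h2 : q ≤ z * z := h1.trans (Nat.mul_le_mul h12 h22)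
      have h3 : (q : ℝ) ≤ (z : ℝ) ^ 2 := by
        rw [sq]; exact_mod_cast h2
      exact h3.trans hz2
    have hcop : ∀ d : ℕ, Rough ((N : ℝ) ^ ε) d → Nat.Coprime q d := by
      intro d hd
      refine Nat.coprime_of_dvd ?_
      intro p hp hp1 hp2
      have h1 := hd.2 p hp hp2
      have h3 : p ∣ q₁ * q₂ := hp1.trans hqdvd'
      have h4 : p ≤ z := by
        rcases (Nat.Prime.dvd_mul hp).1 h3 with h4 | h4
        · exact (Nat.le_of_dvd (by omega) h4).trans h12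
        · exact (Nat.le_of_dvd (by omega) h4).trans h22
      have h5 : (p : ℝ) ≤ z := by exact_mod_cast h4
      linarith
    -- evaluation for pairwise coprime moduli
    have heval : ∀ d d' : ℕ, 1 ≤ d → 1 ≤ d' → d ≤ X ∨ d = 1 → d' ≤ X ∨ d' = 1 →
        Nat.Coprime q d → Nat.Coprime q d' → Nat.Coprime d d' →
        Squarefree d → Squarefree d' → (∀ p : ℕ, p.Prime → p ∣ d → gp S p) →
        (∀ p : ℕ, p.Prime → p ∣ d' → gp S' p) →
        |SK N (Fp S) (Fp S') q d d' - kw k d * kw k d' * (N / (q * d * d'))| ≤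
          kw k d * kw k d' * (1 / (N : ℝ) ^ 5) := by
      intro d d' hd1 hd1' hdX hdX' k1 k2 k3 k4 k5 k6 k7
      obtain ⟨Ω, hΩ1, hΩ2, hΩ3⟩ := hRSK k S hS.card d hd1 k4 k6
      obtain ⟨Ω', hΩ1', hΩ2', hΩ3'⟩ := hRSK k S' hS'.card d' hd1' k5 k7
      rw [← hΩ1, ← hΩ1']
      refine SK_eval N (by omega) (Fp S) (Fp S') q d d' k1 k2 k3 Ω Ω' hΩ2 hΩ2' hΩ3 hΩ3' _ _ ?_
      intro s
      have hdr : ∀ m : ℕ, 1 ≤ m → m ≤ X ∨ m = 1 → (m : ℝ) ≤ (N : ℝ) ^ θ := by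
        intro m _ hm
        rcases hm with hm | hm
        · exact (by exact_mod_cast hm : (m : ℝ) ≤ X).trans hXθ
        · rw [hm, Nat.cast_one]
          exact Real.one_le_rpow hN1 hθ0
      have hm : ((q * d * d' : ℕ) : ℝ) ≤ (N : ℝ) ^ (1 - (1 - 2 * θ) / 2) := by
        push_cast
        calc (q : ℝ) * d * d' ≤ (N : ℝ) ^ (2 * ε₀) * (N : ℝ) ^ θ * (N : ℝ) ^ θ := by
              have := hdr d hd1 hdX
              have := hdr d' hd1' hdX'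
              gcongr
          _ = (N : ℝ) ^ (2 * ε₀ + θ + θ) := by
              rw [← Real.rpow_add hN0, ← Real.rpow_add hN0]
          _ ≤ _ := hNle _ _ (by linarith)
      have h1 := hPA' N hNN1 (q * d * d') s (by
        have : 0 < q * d * d' := Nat.mul_pos (Nat.mul_pos hqpos hd1) hd1'
        omega) hm
      push_cast at h1 ⊢
      exact h1
    have hone : ∀ (T : Finset (ℤ × ℕ)) (p : ℕ), p.Prime → p ∣ 1 → gp T p := by
      intro T p hp hp1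
      exact absurd (Nat.dvd_one.1 hp1) hp.ne_one
    have hrough : ∀ (T : Finset (ℤ × ℕ)) (u : ℕ → ℝ), CofK ((N : ℝ) ^ ε) X T u → ∀ d, u d ≠ 0 →
        1 ≤ d ∧ d ≤ X ∧ Nat.Coprime q d ∧ Squarefree d ∧
        (∀ p : ℕ, p.Prime → p ∣ d → gp T p) := by
      intro T u hu d hd
      have h0 := hu.supp d hd
      exact ⟨h0.1.le, h0.2.1, hcop d (Mo_rough _ X T d h0), h0.2.2.1,
        fun p hp hpd => (h0.2.2.2 p hp hpd).2⟩
    refine one_q N q X ((N : ℝ) ^ ε) hN hqpos hXN' (kw k) C₁ hC₁ ?_ (SK N (Fp S) (Fp S') q)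
      (fun d d' => ∑' n : ℤ, (if ((d : ℤ) ∣ Fp S n ∧ (d' : ℤ) ∣ Fp S' n) then Wt N n else 0))
      (fun d d' => SK_nonneg N _ _ q d d') (fun d d' => SK_le N (by omega) _ _ q d d')
      c c' hc.bd hc'.bd (fun d hd => ⟨(hc.supp d hd).2.1, Mo_rough _ X S d (hc.supp d hd)⟩)
      (fun d hd => ⟨(hc'.supp d hd).2.1, Mo_rough _ X S' d (hc'.supp d hd)⟩) ?_ ?_ ?_ ?_
      (C₂ * ((N : ℝ) ^ (1 - ε) + X)) (C₃ * (N : ℝ) ^ (-(ε / 2))) ?_ ?_
    · intro d hd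
      classical
      unfold roughs at hd
      rw [Finset.mem_filter, Finset.mem_Icc] at hd
      exact hkw d hd.1.2 hd.2
    · have := heval 1 1 le_rfl le_rfl (Or.inr rfl) (Or.inr rfl) (Nat.coprime_one_right q)
        (Nat.coprime_one_right q) (Nat.coprime_one_right 1) squarefree_one squarefree_one
        (hone S) (hone S')
      rw [kw_one] at this
      simpa using this
    · intro d hd
      obtain ⟨a1, a2, a3, a4, a5⟩ := hrough S c hc d hd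
      have := heval d 1 a1 le_rfl (Or.inl a2) (Or.inr rfl) a3 (Nat.coprime_one_right q)
        (Nat.coprime_one_right d) a4 squarefree_one a5 (hone S')
      rw [kw_one] at this
      simpa using this
    · intro d hd
      obtain ⟨a1, a2, a3, a4, a5⟩ := hrough S' c' hc' d hd
      have := heval 1 d le_rfl a1 (Or.inr rfl) (Or.inl a2) (Nat.coprime_one_right q) a3
        (Nat.coprime_one_left d) squarefree_one a4 (hone S) a5
      rw [kw_one] at this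
      simpa using this
    · intro d d' hd hd' hdd
      obtain ⟨a1, a2, a3, a4, a5⟩ := hrough S c hc d hd
      obtain ⟨b1, b2, b3, b4, b5⟩ := hrough S' c' hc' d' hd'
      exact heval d d' a1 b1 (Or.inl a2) (Or.inl b2) a3 b3 hdd a4 b4 a5 b5
    · have h1 := hNC' N X hN hXN' S S' hS hS' hdis
      convert h1 using 1
    · have hsub : roughs ((N : ℝ) ^ ε) X ⊆ roughs ((N : ℝ) ^ ε) N := by
        classical
        intro d hd
        unfold roughs at hd ⊢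
        rw [Finset.mem_filter, Finset.mem_Icc] at hd ⊢
        exact ⟨⟨hd.1.1, hd.1.2.trans hXN'⟩, hd.2⟩
      refine le_trans ?_ (hRB' N hN)
      calc ∑ d ∈ roughs ((N : ℝ) ^ ε) X,
            ∑ d' ∈ (roughs ((N : ℝ) ^ ε) X).filter (fun d' => ¬ Nat.Coprime d d'),
              1 / ((d : ℝ) * d')
          ≤ ∑ d ∈ roughs ((N : ℝ) ^ ε) X,
            ∑ d' ∈ (roughs ((N : ℝ) ^ ε) N).filter (fun d' => ¬ Nat.Coprime d d'),
              1 / ((d : ℝ) * d') := by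
            refine Finset.sum_le_sum fun d _ => ?_
            exact Finset.sum_le_sum_of_subset_of_nonneg (Finset.filter_subset_filter _ hsub)
              fun _ _ _ => by positivity
        _ ≤ _ := Finset.sum_le_sum_of_subset_of_nonneg hsub
              fun _ _ _ => Finset.sum_nonneg fun _ _ => by positivity
  -- (1)
  have hs3 := expand N z X (by omega) lam (kw k) c c' (Fp S) (Fp S')
  have hpart1 : |∑' n : ℤ, Wt N n * nuS lam z n * (RK k c X S n * RK k c' X S' n)| ≤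
      (z : ℝ) ^ 2 * K := by
    simp only [RK_eq]
    rw [hs3]
    refine (abs_dsum_le (Icc 1 z) lam lam hlam.bd hlam.bd _ (fun _ _ => K) ?_ ?_).trans ?_
    · intro q₁ hq₁ q₂ hq₂ h1 h2
      exact hpair q₁ hq₁ q₂ hq₂ h1 h2
    · intro _ _ _ _; exact hK0
    · simp only [Finset.sum_const, nsmul_eq_mul, Nat.card_Icc, Nat.add_sub_cancel]
      exact le_of_eq (by ring)
  -- (2)
  classical
  obtain ⟨Z, hZ1, hZ⟩ := zeros k M N S hS
  obtain ⟨Z', hZ1', hZ'⟩ := zeros k M N S' hS'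
  have hs1 : Summable (fun n : ℤ => Wt N n * nuS lam z n * (RK k c X S n * RK k c' X S' n)) :=
    summ N z (by omega) lam _ _ _ _ (hRKb S c hc) (hRKb S' c' hc')
  have hs2 : Summable (fun n : ℤ => Wt N n * nuS lam z n * (rK k c X S n * rK k c' X S' n)) :=
    summ N z (by omega) lam _ _ _ _ (hrKb S c hc) (hrKb S' c' hc')
  have hdiff : ∑' n : ℤ, (Wt N n * nuS lam z n * (RK k c X S n * RK k c' X S' n) -
      Wt N n * nuS lam z n * (rK k c X S n * rK k c' X S' n)) =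
      ∑ n ∈ Z ∪ Z', Wt N n * nuS lam z n * (RK k c X S n * RK k c' X S' n) := by
    rw [tsum_eq_sum (s := Z ∪ Z')]
    · refine Finset.sum_congr rfl fun n hn => ?_
      rcases Finset.mem_union.1 hn with h | h
      · have : rK k c X S n = 0 := by unfold rK; rw [if_pos ((hZ n).1 h)]
        rw [this]; ring
      · have : rK k c' X S' n = 0 := by unfold rK; rw [if_pos ((hZ' n).1 h)]
        rw [this]; ring
    · intro n hn
      rw [Finset.mem_union, not_or, hZ n, hZ' n] at hn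
      have e1 : rK k c X S n = RK k c X S n := by unfold rK; rw [if_neg hn.1]
      have e2 : rK k c' X S' n = RK k c' X S' n := by unfold rK; rw [if_neg hn.2]
      rw [e1, e2]; ring
  rw [Summable.tsum_sub hs1 hs2] at hdiff
  have hval : ∀ (T : Finset (ℤ × ℕ)), Sys k M N T → ∀ (u : ℕ → ℝ), CofK ((N : ℝ) ^ ε) X T u →
      ∀ n : ℤ, Fp T n ≠ 0 → Wt N n * |RK k u X T n| ≤ 2 * C₄ := by
    intro T hT u hu n hn
    have h1 := (hPB' N X hNN2 hXN' T hT).2 u hu n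
    have h2 : rK k u X T n = RK k u X T n := by
      unfold rK; rw [if_neg hn]
    rw [h2] at h1
    calc Wt N n * |RK k u X T n| ≤ Wt N n * (C₄ * (1 + |(n : ℝ)| / N) ^ (1 / 4 : ℝ)) :=
          mul_le_mul_of_nonneg_left h1 (Wt_nonneg N n)
      _ = C₄ * (Wt N n * (1 + |(n : ℝ)| / N) ^ (1 / 4 : ℝ)) := by ring
      _ ≤ C₄ * 2 := mul_le_mul_of_nonneg_left (Wt_growth N n) hC₄.le
      _ = 2 * C₄ := by ring
  have hpt : ∀ n ∈ Z ∪ Z', |Wt N n * nuS lam z n * (RK k c X S n * RK k c' X S' n)| ≤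
      (z : ℝ) ^ 2 * (X * (1 + C₁) * (2 * C₄)) := by
    intro n hn
    rw [abs_mul, abs_mul, abs_mul, abs_of_nonneg (Wt_nonneg N n),
      abs_of_nonneg (nuS_nonneg lam z n)]
    have hnu := nuS_le lam hlam.bd z n
    have hnu0 := nuS_nonneg lam z n
    have hW := Wt_nonneg N n
    have key : Wt N n * (|RK k c X S n| * |RK k c' X S' n|) ≤ X * (1 + C₁) * (2 * C₄) := by
      rcases Finset.mem_union.1 hn with h | h
      · have h1 := hval S' hS' c' hc' n (zero_ne k M N S S' hS hS' hdis n ((hZ n).1 h))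
        have h2 := hRKb S c hc n
        calc Wt N n * (|RK k c X S n| * |RK k c' X S' n|) =
              |RK k c X S n| * (Wt N n * |RK k c' X S' n|) := by ring
          _ ≤ X * (1 + C₁) * (2 * C₄) :=
              mul_le_mul h2 h1 (mul_nonneg hW (abs_nonneg _)) (by positivity)
      · have h1 := hval S hS c hc n (zero_ne k M N S' S hS' hS hdis.symm n ((hZ' n).1 h))
        have h2 := hRKb S' c' hc' n
        calc Wt N n * (|RK k c X S n| * |RK k c' X S' n|) =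
              |RK k c' X S' n| * (Wt N n * |RK k c X S n|) := by ring
          _ ≤ X * (1 + C₁) * (2 * C₄) :=
              mul_le_mul h2 h1 (mul_nonneg hW (abs_nonneg _)) (by positivity)
    calc Wt N n * nuS lam z n * (|RK k c X S n| * |RK k c' X S' n|) =
          nuS lam z n * (Wt N n * (|RK k c X S n| * |RK k c' X S' n|)) := by ring
      _ ≤ (z : ℝ) ^ 2 * (X * (1 + C₁) * (2 * C₄)) :=
          mul_le_mul hnu key (mul_nonneg hW (by positivity)) (by positivity)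
  have htot : |∑' n : ℤ, Wt N n * nuS lam z n * (rK k c X S n * rK k c' X S' n)| ≤
      (z : ℝ) ^ 2 * (K + D * X) := by
    have h1 : ∑' n : ℤ, Wt N n * nuS lam z n * (rK k c X S n * rK k c' X S' n) =
        ∑' n : ℤ, Wt N n * nuS lam z n * (RK k c X S n * RK k c' X S' n) -
        ∑ n ∈ Z ∪ Z', Wt N n * nuS lam z n * (RK k c X S n * RK k c' X S' n) := by
      linarith
    have h2 : |∑ n ∈ Z ∪ Z', Wt N n * nuS lam z n * (RK k c X S n * RK k c' X S' n)| ≤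
        ((k : ℝ) + k) * ((z : ℝ) ^ 2 * (X * (1 + C₁) * (2 * C₄))) := by
      refine (Finset.abs_sum_le_sum_abs _ _).trans ((Finset.sum_le_sum hpt).trans ?_)
      rw [Finset.sum_const, nsmul_eq_mul]
      apply mul_le_mul_of_nonneg_right _ (by positivity)
      have h3 : (Z ∪ Z').card ≤ k + k := (Finset.card_union_le _ _).trans (by omega)
      exact_mod_cast h3
    rw [h1]
    refine (abs_sub _ _).trans ((add_le_add hpart1 h2).trans (le_of_eq ?_))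
    rw [hD]
    ring
  -- exponents
  have hKX : 0 ≤ K + D * X := by positivity
  have hZZ : ∀ s : ℝ, η + 2 * ε₀ + s ≤ 1 → (N : ℝ) ^ (2 * ε₀) * (N : ℝ) ^ s ≤
      (N : ℝ) ^ (1 - η) := by
    intro s hs
    rw [← Real.rpow_add hN0]
    exact hNle _ _ (by linarith)
  have g2 : (N : ℝ) ^ (2 * ε₀) ≤ (N : ℝ) ^ (1 - η) := hNle _ _ (by linarith)
  have g3 := hZZ (1 - ε) (by linarith)
  have g4 : (N : ℝ) ^ (2 * ε₀) * X ≤ (N : ℝ) ^ (1 - η) :=
    (mul_le_mul_of_nonneg_left hXθ (by positivity)).trans (hZZ θ (by linarith))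
  have g5 : (N : ℝ) ^ (2 * ε₀) * (N * (N : ℝ) ^ (-(ε / 2))) ≤ (N : ℝ) ^ (1 - η) := by
    have h2 : (N : ℝ) ^ (1 - ε / 2) = N * (N : ℝ) ^ (-(ε / 2)) := by
      rw [sub_eq_add_neg, Real.rpow_add hN0, Real.rpow_one]
    rw [← h2]
    exact hZZ (1 - ε / 2) (by linarith)
  calc |∑' n : ℤ, Wt N n * nuS lam z n * (rK k c X S n * rK k c' X S' n)|
      ≤ (z : ℝ) ^ 2 * (K + D * X) := htot
    _ ≤ (N : ℝ) ^ (2 * ε₀) * (K + D * X) := mul_le_mul_of_nonneg_right hz2 hKX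
    _ = 4 * C₁ ^ 2 * (N : ℝ) ^ (2 * ε₀) +
        C₂ * ((N : ℝ) ^ (2 * ε₀) * (N : ℝ) ^ (1 - ε)) + C₂ * ((N : ℝ) ^ (2 * ε₀) * X) +
        C₁ ^ 2 * C₃ * ((N : ℝ) ^ (2 * ε₀) * (N * (N : ℝ) ^ (-(ε / 2)))) +
        D * ((N : ℝ) ^ (2 * ε₀) * X) := by
        rw [hK]; ring
    _ ≤ 4 * C₁ ^ 2 * (N : ℝ) ^ (1 - η) + C₂ * (N : ℝ) ^ (1 - η) +
        C₂ * (N : ℝ) ^ (1 - η) + C₁ ^ 2 * C₃ * (N : ℝ) ^ (1 - η) +
        D * (N : ℝ) ^ (1 - η) := by
        gcongr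
    _ = (4 * C₁ ^ 2 + 2 * C₂ + C₁ ^ 2 * C₃ + D) * (N : ℝ) ^ (1 - η) := by ring
    _ ≤ (Bs + (4 * C₁ ^ 2 + 2 * C₂ + C₁ ^ 2 * C₃ + D)) * (N : ℝ) ^ (1 - η) := by
        refine mul_le_mul_of_nonneg_right ?_ (by positivity)
        linarith

end Pool.Agent.W45.KT
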